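import Pool.Agent.Q130.SA.Defs

set_option autoImplicit false

/-!
# Arboricity: definition
-/

namespace Q130.SA

variable {V : Type*}

/-- An edge colouring `c` of `G` (only its values on edges matter) is *woody* if no cycle of `G` is
monochromatic. -/
def Woody (G : SimpleGraph V) (c : Sym2 V → ℕ) : Prop :=
  ∀ (u : V) (w : G.Walk u u), w.IsCycle → ¬ ∃ i, ∀ e ∈ w.edges, c e = i

/-- `G` has a woody edge colouring with at most `k` colours `0, …, k-1`. -/
def HasW (G : SimpleGraph V) (k : ℕ) : Prop :=
  ∃ c : Sym2 V → ℕ, (∀ e ∈ G.edgeSet, c e < k) ∧ Woody G c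

/-- The arboricity `arb(G)`: the least number of colours in a woody edge colouring. -/
noncomputable def arb (G : SimpleGraph V) : ℕ := sInf {k | HasW G k}

end Q130.SA
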