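import Pool.Agent.Q130.SA.Lower
import Pool.Agent.Q130.SA.Defs2

set_option autoImplicit false

/-!
# Strong arboricity against arboricity: the lower bound

`G3 k M b`: the vertices `inl i` (`i < k`) are joined to all vertices `x v` (`v < M`), and for every
pair `(v, w)` there is a complete graph on `b` new vertices, all of them joined to `x v` and to `x w`.
-/

namespace Q130.SA

open SimpleGraph

theorem three {V : Type*} {G : SimpleGraph V} {c : Sym2 V → ℕ} (hw : StronglyWoody G c) {a b x : V}
    (h1 : G.Adj a b) (h2 : G.Adj b x) (h3 : G.Adj x a)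
    (i : ℕ) (e1 : c s(b, x) = i) (e2 : c s(x, a) = i) : False := by
  refine hw a b h1 (.cons h2 (.cons h3 .nil)) ?_ ⟨i, ?_⟩
  · rw [Walk.cons_isCycle_iff]
    refine ⟨?_, ?_⟩
    · simp only [Walk.cons_isPath_iff, Walk.support_cons, Walk.support_nil,
        List.mem_cons, List.not_mem_nil, or_false, not_or, Walk.isPath_iff_nil, Walk.nil_nil, true_and]
      exact ⟨h3.ne, h2.ne, h1.ne.symm⟩
    · simp only [Walk.edges_cons, Walk.edges_nil, List.mem_cons, List.not_mem_nil, or_false, not_or,
        Sym2.eq_iff, not_and]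
      refine ⟨⟨fun h => absurd h h1.ne, fun h => absurd h h3.ne.symm⟩,
        ⟨fun h => absurd h h3.ne.symm, fun _ h => h2.ne h⟩⟩
  · intro e he
    simp only [Walk.edges_cons, Walk.edges_nil, List.mem_cons, List.not_mem_nil, or_false] at he
    rcases he with rfl | rfl <;> assumption

/-- vertex type of the construction -/
abbrev V3 (k M b : ℕ) := Fin k ⊕ (Fin M ⊕ (Fin M × Fin M × Fin b))

/-- the generating relation -/
def R3 (k M b : ℕ) : V3 k M b → V3 k M b → Prop
  | .inl _, .inr (.inl _) => True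
  | .inr (.inl v), .inr (.inr (x, y, _)) => x = v ∨ y = v
  | .inr (.inr (x, y, _)), .inr (.inr (x', y', _)) => x = x' ∧ y = y'
  | _, _ => False

/-- the graph -/
def G3 (k M b : ℕ) : SimpleGraph (V3 k M b) := SimpleGraph.fromRel (R3 k M b)

variable {k M b : ℕ}

theorem g3_adj1 (i : Fin k) (v : Fin M) : (G3 k M b).Adj (.inl i) (.inr (.inl v)) := by
  simp [G3, SimpleGraph.fromRel_adj, R3]

theorem g3_adj2 (v w : Fin M) (i : Fin b) :
    (G3 k M b).Adj (.inr (.inl v)) (.inr (.inr (v, w, i))) := by
  simp [G3, SimpleGraph.fromRel_adj, R3]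

theorem g3_adj3 (v w : Fin M) (i : Fin b) :
    (G3 k M b).Adj (.inr (.inl w)) (.inr (.inr (v, w, i))) := by
  simp [G3, SimpleGraph.fromRel_adj, R3]

theorem g3_adj4 (v w : Fin M) (i i' : Fin b) (h : i ≠ i') :
    (G3 k M b).Adj (.inr (.inr (v, w, i))) (.inr (.inr (v, w, i'))) := by
  simp [G3, SimpleGraph.fromRel_adj, R3, h]

/-- With fewer than `k + b` colours there is no strongly woody colouring. -/
theorem lower3 (C : ℕ) (hC : C < k + b) (hM : C ^ k < M) : ¬ HasSW (G3 k M b) C := by
  classical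
  rintro ⟨c, hc, hw⟩
  have hlt : ∀ (x y : V3 k M b), (G3 k M b).Adj x y → c s(x, y) < C := fun a b h =>
    hc _ ((SimpleGraph.mem_edgeSet _).2 h)
  let τ : Fin M → (Fin k → Fin C) := fun v i => ⟨c s(.inl i, .inr (.inl v)), hlt _ _ (g3_adj1 i v)⟩
  obtain ⟨v, w, hvw, hτ⟩ : ∃ v w, v ≠ w ∧ τ v = τ w := by
    have := Fintype.exists_ne_map_eq_of_card_lt τ (by simpa using hM)
    simpa using this
  have hcol : ∀ i, c s(.inl i, .inr (.inl v)) = c s(.inl i, .inr (.inl w)) := by
    intro i
    exact congrArg Fin.val (congrFun hτ i)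
  have hvw' : (Sum.inr (Sum.inl v) : V3 k M b) ≠ Sum.inr (Sum.inl w) := by simpa using hvw
  let s : Fin b → Fin C := fun i =>
    ⟨c s(.inr (.inl v), .inr (.inr (v, w, i))), hlt _ _ (g3_adj2 v w i)⟩
  -- the colours at the base are different
  have hτinj : Function.Injective (τ v) := by
    intro i i' hii
    by_contra hne
    have h' : c s(.inl i, .inr (.inl v)) = c s(.inl i', .inr (.inl v)) := congrArg Fin.val hii
    refine four hw (a := .inl i) (b := .inr (.inl v)) (x := .inl i') (y := .inr (.inl w))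
      (g3_adj1 _ _) (g3_adj1 _ _).symm (g3_adj1 _ _) (g3_adj1 _ _).symm ?_ ?_ (τ v i) ?_ ?_ ?_
    · simpa using hne
    · exact hvw'
    · rw [Sym2.eq_swap]; exact h'.symm
    · rw [← hcol]; exact h'.symm
    · rw [Sym2.eq_swap, ← hcol]
  have hsinj : Function.Injective s := by
    intro i i' hii
    by_contra hne
    have h' : c s(.inr (.inl v), .inr (.inr (v, w, i))) = c s(.inr (.inl v), .inr (.inr (v, w, i'))) :=
      congrArg Fin.val hii
    refine three hw (a := .inr (.inr (v, w, i))) (b := .inr (.inr (v, w, i'))) (x := .inr (.inl v))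
      (g3_adj4 _ _ _ _ hne) (g3_adj2 _ _ _).symm (g3_adj2 _ _ _) (s i) ?_ ?_
    · rw [Sym2.eq_swap]; exact h'.symm
    · rfl
  have hst : ∀ i j, s i ≠ τ v j := by
    intro i j hEq
    have hEq' : c s(.inr (.inl v), .inr (.inr (v, w, i))) = c s(.inl j, .inr (.inl v)) :=
      congrArg Fin.val hEq
    refine four hw (a := .inr (.inl w)) (b := .inr (.inr (v, w, i))) (x := .inr (.inl v))
      (y := .inl j) (g3_adj3 _ _ _) (g3_adj2 _ _ _).symm (g3_adj1 _ _).symm (g3_adj1 _ _) ?_ ?_
      (τ v j) ?_ ?_ ?_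
    · exact hvw'.symm
    · simp
    · rw [Sym2.eq_swap]; exact hEq'
    · rw [Sym2.eq_swap]
    · exact (hcol j).symm
  have hinj : Function.Injective (Sum.elim s (τ v)) := by
    rintro (a | a) (b | b) h
    · exact congrArg _ (hsinj h)
    · exact absurd h (hst a b)
    · exact absurd h.symm (hst b a)
    · exact congrArg _ (hτinj h)
  have := Fintype.card_le_of_injective _ hinj
  simp only [Fintype.card_sum, Fintype.card_fin] at this
  omega

/-- every finite graph has a strongly woody colouring -/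
theorem exists_hasSW {V : Type*} [Finite V] (G : SimpleGraph V) : ∃ n, HasSW G n := by
  classical
  have : Fintype V := Fintype.ofFinite V
  refine ⟨Fintype.card (Sym2 V), fun e => (Fintype.equivFin (Sym2 V) e : ℕ), fun e _ => Fin.isLt _, ?_⟩
  rintro u v h p hp ⟨i, hi⟩
  have hinj : ∀ e ∈ p.edges, ∀ e' ∈ p.edges, e = e' := by
    intro e he e' he'
    have := (hi e he).trans (hi e' he').symm
    exact (Fintype.equivFin (Sym2 V)).injective (Fin.ext this)
  have h3 := hp.three_le_length
  have hn := hp.edges_nodup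
  rw [Walk.length_cons] at h3
  rw [Walk.edges_cons, List.nodup_cons] at hn
  have hlen : p.edges.length = p.length := Walk.length_edges p
  have : p.edges.length ≤ 1 := by
    rcases hE : p.edges with _ | ⟨e1, _ | ⟨e2, l⟩⟩
    · simp
    · simp
    · exfalso
      rw [hE] at hn hinj
      have := hinj e1 (by simp) e2 (by simp)
      have hn2 := (List.nodup_cons.1 hn.2).1
      exact hn2 (by rw [this]; simp)
  omega

theorem lower3_zeta (hM : (k + b) ^ k < M) : k + b ≤ zeta (G3 k M b) := by
  have hne : {n | HasSW (G3 k M b) n}.Nonempty := exists_hasSW _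
  have hm := Nat.sInf_mem hne
  by_contra hcon
  push Not at hcon
  refine lower3 (zeta (G3 k M b)) hcon (lt_of_le_of_lt ?_ hM) hm
  exact Nat.pow_le_pow_left hcon.le k

end Q130.SA
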