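import Pool.Agent.Q130.SA.Arb1

set_option autoImplicit false

/-!
# Strong arboricity against arboricity: the arboricity of the graph
-/

namespace Q130.SA

open SimpleGraph

/-- If, for every colour, every vertex has at most one neighbour in this colour whose rank is at most
its own, then the colouring is woody. -/
theorem woody_of_rank {V : Type*} (G : SimpleGraph V) (c : Sym2 V → ℕ) (d : ℕ → V → ℕ)
    (h : ∀ j v u u', G.Adj v u → G.Adj v u' → c s(v, u) = j → c s(v, u') = j → d j u ≤ d j v →
      d j u' ≤ d j v → u = u') : Woody G c := by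
  classical
  rintro a w hw ⟨j, hj⟩
  obtain ⟨v, hv, hmax⟩ := w.support.toFinset.exists_max_image (d j) ⟨a, by simp⟩
  have hv' : v ∈ w.support := by simpa using hv
  have hrc : (w.rotate v hv').IsCycle := hw.rotate hv'
  have hcol : ∀ e ∈ (w.rotate v hv').edges, c e = j := fun e he =>
    hj e ((w.rotate_edges v hv').perm.mem_iff.1 he)
  have hsup : ∀ x ∈ (w.rotate v hv').support, d j x ≤ d j v := by
    intro x hx
    refine hmax x ?_
    rw [List.mem_toFinset]
    exact (w.mem_support_rotate_iff v hv').1 hx
  generalize w.rotate v hv' = w' at hrc hcol hsup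
  have hnil : ¬ w'.Nil := by
    intro hn
    have := hrc.three_le_length
    have h0 := Walk.length_eq_zero_iff.2 hn
    omega
  have h1 := w'.adj_snd hnil
  have h2 := w'.adj_penultimate hnil
  refine hrc.snd_ne_penultimate (h j v _ _ h1 h2.symm (hcol _ ?_) ?_ (hsup _ ?_) (hsup _ ?_))
  · exact w'.mk_start_snd_mem_edges hnil
  · rw [Sym2.eq_swap]
    exact hcol _ (w'.mk_penultimate_end_mem_edges hnil)
  · exact w'.snd_mem_support_of_mem_edges (w'.mk_start_snd_mem_edges hnil)
  · exact w'.fst_mem_support_of_mem_edges (w'.mk_penultimate_end_mem_edges hnil)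

/-! ### zigzag paths -/

/-- the index of the zigzag path of `Z_{2m}` that contains `{u, v}` -/
def zc (m u v : ℕ) : ℕ := ((u + v) % (2 * m)) / 2

/-- rotated position -/
def tt (m j v : ℕ) : ℕ := if j ≤ v then v - j else v + 2 * m - j

/-- the position of `v` on the `j`-th zigzag path -/
def pos (m j v : ℕ) : ℕ := if tt m j v ≤ m then 2 * tt m j v - 1 else 4 * m - 2 * tt m j v

/-- the distance of `v` from `0` on the `j`-th zigzag path -/
def dz (m j v : ℕ) : ℕ := (pos m j v - pos m j 0) + (pos m j 0 - pos m j v)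

theorem zc_comm (m u v : ℕ) : zc m u v = zc m v u := by
  rw [zc, zc, add_comm]

theorem zc_lt (m u v : ℕ) (hm : 0 < m) : zc m u v < m := by
  have := Nat.mod_lt (u + v) (show 0 < 2 * m by omega)
  rw [zc]
  omega

theorem zc_sum (m u v j : ℕ) (hu : u < 2 * m) (hv : v < 2 * m) (h : zc m u v = j) :
    u + v = 2 * j ∨ u + v = 2 * j + 1 ∨ u + v = 2 * j + 2 * m ∨ u + v = 2 * j + 1 + 2 * m := by
  rw [zc] at h
  rcases Nat.lt_or_ge (u + v) (2 * m) with h1 | h1
  · rw [Nat.mod_eq_of_lt h1] at h
    omega
  · rw [Nat.mod_eq_sub_mod h1, Nat.mod_eq_of_lt (by omega)] at h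
    omega

theorem pos_adj (m u v j : ℕ) (hj : j < m) (hu : u < 2 * m) (hv : v < 2 * m) (huv : u ≠ v)
    (h : zc m u v = j) : pos m j u = pos m j v + 1 ∨ pos m j v = pos m j u + 1 := by
  have h1 := zc_sum m u v j hu hv h
  unfold pos tt
  split_ifs <;> omega

theorem pos_inj (m u v j : ℕ) (hj : j < m) (hu : u < 2 * m) (hv : v < 2 * m)
    (h : pos m j u = pos m j v) : u = v := by
  unfold pos tt at h
  split_ifs at h <;> omega

theorem dz_zero (m j : ℕ) : dz m j 0 = 0 := by
  simp [dz]

theorem dz_unique (m u v v' j : ℕ) (hj : j < m) (hu : u < 2 * m) (hv : v < 2 * m)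
    (hv' : v' < 2 * m) (huv : u ≠ v) (huv' : u ≠ v') (h : zc m u v = j) (h' : zc m u v' = j)
    (hd : dz m j v ≤ dz m j u) (hd' : dz m j v' ≤ dz m j u) : v = v' := by
  have h1 := pos_adj m u v j hj hu hv huv h
  have h2 := pos_adj m u v' j hj hu hv' huv' h'
  apply pos_inj m v v' j hj hv hv'
  unfold dz at hd hd'
  omega

/-- the colours -/
def f3 (m M b : ℕ) : V3 (m + 1) M b → V3 (m + 1) M b → ℕ
  | .inl i, .inr (.inl _) => i
  | .inr (.inl _), .inl i => i
  | .inr (.inl v), .inr (.inr (x, _, i)) => if x = v then zc m 0 (i + 1) else m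
  | .inr (.inr (x, _, i)), .inr (.inl v) => if x = v then zc m 0 (i + 1) else m
  | .inr (.inr (_, _, i)), .inr (.inr (_, _, i')) => zc m (i + 1) (i' + 1)
  | _, _ => 0

theorem f3_comm (m M b : ℕ) (u v : V3 (m + 1) M b) : f3 m M b u v = f3 m M b v u := by
  rcases u with u | u | ⟨x, y, i⟩ <;> rcases v with v | v | ⟨x', y', i'⟩ <;> simp only [f3]
  exact zc_comm _ _ _

/-- the colouring -/
def c3 (m M b : ℕ) : Sym2 (V3 (m + 1) M b) → ℕ := Sym2.lift ⟨f3 m M b, f3_comm m M b⟩

theorem c3_mk (m M b : ℕ) (u v : V3 (m + 1) M b) : c3 m M b s(u, v) = f3 m M b u v := rfl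

/-- the ranks -/
def d3 (m M b j : ℕ) : V3 (m + 1) M b → ℕ
  | .inl _ => 0
  | .inr (.inl _) => 1
  | .inr (.inr (_, _, i)) => 2 + dz m j (i + 1)

theorem hasW3 (m M : ℕ) (hm : 1 ≤ m) : HasW (G3 (m + 1) M (2 * m - 1)) (m + 1) := by
  refine ⟨c3 m M (2 * m - 1), ?_, woody_of_rank _ _ (fun j => d3 m M (2 * m - 1) j) ?_⟩
  · intro e
    induction e with
    | h u v =>
      intro _
      rw [c3_mk]
      have hz : ∀ x y, zc m x y < m + 1 := fun x y => (zc_lt m x y hm).trans (Nat.lt_succ_self m)
      rcases u with u | u | ⟨x, y, i⟩ <;> rcases v with v | v | ⟨x', y', i'⟩ <;> simp only [f3]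
      · omega
      · exact u.2
      · omega
      · exact v.2
      · omega
      · split_ifs
        · exact hz _ _
        · omega
      · omega
      · split_ifs
        · exact hz _ _
        · omega
      · exact hz _ _
  · intro j v u u' hu hu' hc hc' hd hd'
    rw [c3_mk] at hc hc'
    rcases v with v | v | ⟨x, y, i⟩
    · -- base vertex: its neighbours have larger rank
      rcases u with u | u | ⟨x1, y1, i1⟩
      · simp [G3, SimpleGraph.fromRel_adj, R3] at hu
      · simp [d3] at hd
      · simp [G3, SimpleGraph.fromRel_adj, R3] at hu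
    · rcases u with u | u | ⟨x1, y1, i1⟩
      · rcases u' with u' | u' | ⟨x2, y2, i2⟩
        · simp only [f3] at hc hc'
          congr 1
          exact Fin.ext (hc.trans hc'.symm)
        · simp [G3, SimpleGraph.fromRel_adj, R3] at hu'
        · simp only [d3] at hd'
          omega
      · simp [G3, SimpleGraph.fromRel_adj, R3] at hu
      · simp only [d3] at hd
        omega
    · have hi := i.2
      have hadj : ∀ a a' : Fin (2 * m - 1), (G3 (m + 1) M (2 * m - 1)).Adj (.inr (.inr (x, y, a)))
          (.inr (.inr (x, y, a'))) → a ≠ a' := by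
        intro a a' h h'
        rw [h'] at h
        exact h.ne rfl
      have key : ∀ w : V3 (m + 1) M (2 * m - 1), (G3 (m + 1) M (2 * m - 1)).Adj (.inr (.inr (x, y, i))) w →
          f3 m M (2 * m - 1) (.inr (.inr (x, y, i))) w = j →
          (w = .inr (.inl x) ∧ zc m (i + 1) 0 = j) ∨ (w = .inr (.inl y) ∧ j = m) ∨
          ∃ a : Fin (2 * m - 1), w = .inr (.inr (x, y, a)) ∧ i ≠ a ∧ zc m (i + 1) (a + 1) = j := by
        intro w hw hcw
        rcases w with w | w | ⟨x1, y1, i1⟩
        · simp [G3, SimpleGraph.fromRel_adj, R3] at hw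
        · simp only [f3] at hcw
          split_ifs at hcw with h
          · left
            rw [h]
            exact ⟨rfl, by rw [zc_comm]; exact hcw⟩
          · right; left
            have : x = w ∨ y = w := by
              simpa [G3, SimpleGraph.fromRel_adj, R3] using hw
            rcases this with h1 | h1
            · exact absurd h1 h
            · exact ⟨by rw [h1], hcw.symm⟩
        · right; right
          simp only [f3] at hcw
          have h1 : x = x1 ∧ y = y1 := by
            simp only [G3, SimpleGraph.fromRel_adj, R3] at hw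
            rcases hw.2 with h | h
            · exact h
            · exact ⟨h.1.symm, h.2.symm⟩
          obtain ⟨rfl, rfl⟩ := h1
          exact ⟨i1, rfl, hadj _ _ hw, hcw⟩
      have hz : ∀ p q, zc m p q < m := fun p q => zc_lt m p q hm
      rcases key u hu hc with ⟨rfl, h1⟩ | ⟨rfl, h1⟩ | ⟨a, rfl, ha, h1⟩ <;>
        rcases key u' hu' hc' with ⟨rfl, h2⟩ | ⟨rfl, h2⟩ | ⟨a', rfl, ha', h2⟩
      · rfl
      · have := hz (i + 1) 0
        omega
      · exfalso
        have hj : j < m := h1 ▸ hz _ _
        simp only [d3] at hd hd'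
        have := dz_unique m (i + 1) 0 (a' + 1) j hj (by omega) (by omega) (by omega) (by omega)
          (by intro h; exact ha' (Fin.ext (by omega))) h1 h2 (by rw [dz_zero]; omega) (by omega)
        omega
      · have := hz (i + 1) 0
        omega
      · rfl
      · have := hz (i + 1) (a' + 1)
        omega
      · exfalso
        have hj : j < m := h1 ▸ hz _ _
        simp only [d3] at hd hd'
        have := dz_unique m (i + 1) 0 (a + 1) j hj (by omega) (by omega) (by omega) (by omega)
          (by intro h; exact ha (Fin.ext (by omega))) h2 h1 (by rw [dz_zero]; omega) (by omega)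
        omega
      · have := hz (i + 1) (a + 1)
        omega
      · have hj : j < m := h1 ▸ hz _ _
        simp only [d3] at hd hd'
        have := dz_unique m (i + 1) (a + 1) (a' + 1) j hj (by omega) (by omega) (by omega)
          (by intro h; exact ha (Fin.ext (by omega))) (by intro h; exact ha' (Fin.ext (by omega)))
          h1 h2 (by omega) (by omega)
        have h3 : a = a' := Fin.ext (by omega)
        rw [h3]

end Q130.SA
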