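import Mathlib

set_option autoImplicit false

/-!
# Strong arboricity, arboricity and the colouring number: definitions
-/

namespace Q130.SA

variable {V : Type*}

/-- An edge colouring `c` of `G` (only its values on edges of `G` matter) is *strongly woody* if no
broken cycle is monochromatic.  A cycle `C` of `G` together with one of its edges `e = uv` is a closed
walk `cons h p` (first edge `e`, then the path `p = C - e`) with `(cons h p).IsCycle`. -/
def StronglyWoody (G : SimpleGraph V) (c : Sym2 V → ℕ) : Prop :=
  ∀ (u v : V) (h : G.Adj u v) (p : G.Walk v u), (SimpleGraph.Walk.cons h p).IsCycle →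
    ¬ ∃ i, ∀ e ∈ p.edges, c e = i

/-- `G` has a strongly woody edge colouring with at most `k` colours `0, …, k-1`. -/
def HasSW (G : SimpleGraph V) (k : ℕ) : Prop :=
  ∃ c : Sym2 V → ℕ, (∀ e ∈ G.edgeSet, c e < k) ∧ StronglyWoody G c

/-- The strong arboricity `ζ(G)`: the least number of colours in a strongly woody edge colouring. -/
noncomputable def zeta (G : SimpleGraph V) : ℕ := sInf {k | HasSW G k}

/-- The colouring number `col(G)`: the least `r` such that for some ordering of the vertices (given by
an injective rank function `f`) every vertex has fewer than `r` neighbours preceding it. -/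
noncomputable def col (G : SimpleGraph V) : ℕ :=
  sInf {r | ∃ f : V → ℕ, Function.Injective f ∧ ∀ v, {u | G.Adj v u ∧ f u < f v}.ncard < r}

end Q130.SA
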