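import Pool.Agent.Q130.SA.Defs

set_option autoImplicit false

/-!
# Upper bound: `ζ(G) ≤ 2 d` for every `d`-degenerate graph
-/

namespace Q130.SA

open SimpleGraph

/-- Well-founded recursion with choices. -/
theorem exists_rec {α β : Type*} (r : α → α → Prop) (wf : WellFounded r)
    (P : (a : α) → ((b : α) → r b a → β) → β → Prop)
    (h : ∀ a (prev : (b : α) → r b a → β), ∃ z, P a prev z) :
    ∃ F : α → β, ∀ a, P a (fun b _ => F b) (F a) := by
  classical
  choose G hG using h
  refine ⟨wf.fix G, fun a => ?_⟩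
  have := hG a (fun b _ => wf.fix G b)
  rw [wf.fix_eq]
  exact this

variable {V : Type*}

/-- back-neighbourhood -/
def back (G : SimpleGraph V) (f : V → ℕ) (v : V) : Set V := {u | G.Adj v u ∧ f u < f v}

/-- Greedy system of distinct representatives. -/
theorem greedy [Finite V] (f : V → ℕ) (hf : Function.Injective f) (A : Set V) (d : ℕ)
    (hA : A.ncard ≤ d) (F : V → Set ℕ) (hF : ∀ a ∈ A, (F a).Finite ∧
      (F a).ncard ≤ d + {a' ∈ A | f a < f a'}.ncard) :
    ∃ g : V → ℕ, ∀ a ∈ A, g a < 2 * d ∧ g a ∉ F a ∧ ∀ a' ∈ A, a' ≠ a → g a' ≠ g a := by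
  classical
  obtain ⟨g, hg⟩ := exists_rec (fun x y : V => f x < f y) (InvImage.wf f Nat.lt_wfRel.wf)
    (fun a prev z => a ∈ A → z < 2 * d ∧ z ∉ F a ∧ ∀ a' (h : f a' < f a), a' ∈ A → prev a' h ≠ z) (by
      intro a prev
      by_cases ha : a ∈ A
      swap
      · exact ⟨0, fun h => absurd h ha⟩
      set S : Set ℕ := F a ∪ {z | ∃ (a' : V) (h : f a' < f a), a' ∈ A ∧ prev a' h = z} with hS
      have hE : {z | ∃ (a' : V) (h : f a' < f a), a' ∈ A ∧ prev a' h = z} =
          (fun a' : V => if h : f a' < f a then prev a' h else 0) '' {a' ∈ A | f a' < f a} := by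
        ext z
        constructor
        · rintro ⟨a', h, h1, h2⟩
          exact ⟨a', ⟨h1, h⟩, by simp only [dif_pos h, h2]⟩
        · rintro ⟨a', ⟨h1, h2⟩, h3⟩
          refine ⟨a', h2, h1, ?_⟩
          simpa only [dif_pos h2] using h3
      have hEfin : {z | ∃ (a' : V) (h : f a' < f a), a' ∈ A ∧ prev a' h = z}.Finite := by
        rw [hE]; exact (Set.toFinite _).image _
      have hEc : {z | ∃ (a' : V) (h : f a' < f a), a' ∈ A ∧ prev a' h = z}.ncard ≤
          {a' ∈ A | f a' < f a}.ncard := by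
        rw [hE]; exact Set.ncard_image_le (Set.toFinite _)
      have hAsplit : {a' ∈ A | f a' < f a}.ncard + {a' ∈ A | f a < f a'}.ncard + 1 ≤ A.ncard := by
        have h1 : Disjoint {a' ∈ A | f a' < f a} {a' ∈ A | f a < f a'} := by
          rw [Set.disjoint_left]; rintro x ⟨_, h1⟩ ⟨_, h2⟩; omega
        have h2 : a ∉ {a' ∈ A | f a' < f a} ∪ {a' ∈ A | f a < f a'} := by
          rintro (⟨_, h⟩ | ⟨_, h⟩) <;> omega
        have h3 : insert a ({a' ∈ A | f a' < f a} ∪ {a' ∈ A | f a < f a'}) ⊆ A := by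
          rintro x (rfl | ⟨h, _⟩ | ⟨h, _⟩) <;> assumption
        have h4 := Set.ncard_le_ncard h3 (Set.toFinite _)
        rw [Set.ncard_insert_of_notMem h2 (Set.toFinite _), Set.ncard_union_eq h1] at h4
        omega
      have hSfin : S.Finite := (hF a ha).1.union hEfin
      have hSc : S.ncard < 2 * d := by
        have := Set.ncard_union_le (F a) {z | ∃ (a' : V) (h : f a' < f a), a' ∈ A ∧ prev a' h = z}
        have h2 := (hF a ha).2
        rw [← hS] at this
        omega
      have : ∃ z, z ∈ (Finset.range (2 * d) : Finset ℕ) ∧ z ∉ hSfin.toFinset := by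
        by_contra hcon
        push Not at hcon
        have h1 : Finset.range (2 * d) ⊆ hSfin.toFinset := fun z hz => hcon z hz
        have h2 := Finset.card_le_card h1
        rw [Finset.card_range, ← Set.ncard_eq_toFinset_card S hSfin] at h2
        omega
      obtain ⟨z, hz1, hz2⟩ := this
      rw [Set.Finite.mem_toFinset] at hz2
      refine ⟨z, fun _ => ⟨Finset.mem_range.1 hz1, fun h => hz2 (Or.inl h), ?_⟩⟩
      intro a' h ha' heq
      exact hz2 (Or.inr ⟨a', h, ha', heq⟩))
  refine ⟨g, fun a ha => ?_⟩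
  obtain ⟨h1, h2, h3⟩ := hg a ha
  refine ⟨h1, h2, fun a' ha' hne => ?_⟩
  rcases lt_trichotomy (f a') (f a) with h | h | h
  · exact h3 a' h ha'
  · exact absurd (hf h) hne
  · have := (hg a' ha').2.2 a h ha
    exact fun h' => this h'.symm

/-- The back-edge labelling. -/
theorem exists_label [Finite V] (G : SimpleGraph V) (f : V → ℕ) (hf : Function.Injective f) (d : ℕ)
    (hd : ∀ v, (back G f v).ncard ≤ d) :
    ∃ b : V → V → ℕ, ∀ w,
      (∀ a ∈ back G f w, b w a < 2 * d) ∧
      (∀ a ∈ back G f w, ∀ a' ∈ back G f w, a' ≠ a → b w a' ≠ b w a) ∧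
      (∀ a ∈ back G f w, ∀ u ∈ back G f a, b a u ≠ b w a) ∧
      (∀ a ∈ back G f w, ∀ a' ∈ back G f w, a ∈ back G f a' → b a' a ≠ b w a) := by
  classical
  obtain ⟨b, hb⟩ := exists_rec (β := V → ℕ) (fun x y : V => f x < f y)
    (InvImage.wf f Nat.lt_wfRel.wf)
    (fun w prev z =>
      (∀ a ∈ back G f w, z a < 2 * d) ∧
      (∀ a ∈ back G f w, ∀ a' ∈ back G f w, a' ≠ a → z a' ≠ z a) ∧
      (∀ a (h : a ∈ back G f w), ∀ u ∈ back G f a, prev a h.2 u ≠ z a) ∧
      (∀ a ∈ back G f w, ∀ a' (h : a' ∈ back G f w), a ∈ back G f a' → prev a' h.2 a ≠ z a)) (by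
      intro w prev
      let F : V → Set ℕ := fun a =>
        {z | ∃ (h : a ∈ back G f w) (u : V), u ∈ back G f a ∧ prev a h.2 u = z} ∪
        {z | ∃ (a' : V) (h : a' ∈ back G f w), a ∈ back G f a' ∧ prev a' h.2 a = z}
      obtain ⟨g, hg⟩ := greedy f hf (back G f w) d (hd w) F (by
        intro a ha
        have e1 : {z | ∃ (h : a ∈ back G f w) (u : V), u ∈ back G f a ∧ prev a h.2 u = z} =
            (fun u => prev a ha.2 u) '' back G f a := by
          ext z
          constructor
          · rintro ⟨_, u, h1, h2⟩; exact ⟨u, h1, h2⟩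
          · rintro ⟨u, h1, h2⟩; exact ⟨ha, u, h1, h2⟩
        have e2 : {z | ∃ (a' : V) (h : a' ∈ back G f w), a ∈ back G f a' ∧ prev a' h.2 a = z} ⊆
            (fun a' => if h : f a' < f w then prev a' h a else 0) ''
              {a' ∈ back G f w | f a < f a'} := by
          rintro z ⟨a', h, h1, h2⟩
          refine ⟨a', ⟨h, h1.2⟩, ?_⟩
          have h3 : f a' < f w := h.2
          simp only [dif_pos h3]; exact h2
        have c1 : {z | ∃ (h : a ∈ back G f w) (u : V), u ∈ back G f a ∧ prev a h.2 u = z}.ncard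
            ≤ d := by
          rw [e1]
          exact (Set.ncard_image_le (Set.toFinite _)).trans (hd a)
        have c2 : {z | ∃ (a' : V) (h : a' ∈ back G f w), a ∈ back G f a' ∧ prev a' h.2 a = z}.ncard
            ≤ {a' ∈ back G f w | f a < f a'}.ncard :=
          (Set.ncard_le_ncard e2 ((Set.toFinite _).image _)).trans
            (Set.ncard_image_le (Set.toFinite _))
        refine ⟨Set.Finite.union ?_ ?_, ?_⟩
        · rw [e1]; exact (Set.toFinite _).image _
        · exact ((Set.toFinite _).image _).subset e2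
        · have := Set.ncard_union_le
            {z | ∃ (h : a ∈ back G f w) (u : V), u ∈ back G f a ∧ prev a h.2 u = z}
            {z | ∃ (a' : V) (h : a' ∈ back G f w), a ∈ back G f a' ∧ prev a' h.2 a = z}
          show (_ ∪ _ : Set ℕ).ncard ≤ _
          omega)
      refine ⟨g, fun a ha => (hg a ha).1, fun a ha a' ha' hne => (hg a ha).2.2 a' ha' hne, ?_, ?_⟩
      · intro a ha u hu heq
        exact (hg a ha).2.1 (Or.inl ⟨ha, u, hu, heq⟩)
      · intro a ha a' ha' haa' heq
        exact (hg a ha).2.1 (Or.inr ⟨a', ha', haa', heq⟩))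
  refine ⟨b, fun w => ?_⟩
  obtain ⟨h1, h2, h3, h4⟩ := hb w
  exact ⟨h1, h2, fun a ha u hu => h3 a ha u hu, fun a ha a' ha' haa' => h4 a ha a' ha' haa'⟩

/-- **Upper bound.** A graph with an ordering of back-degree at most `d` has a strongly woody
colouring with `2 d` colours. -/
theorem hasSW_of_degenerate [Finite V] (G : SimpleGraph V) (f : V → ℕ)
    (hf : Function.Injective f) (d : ℕ) (hd : ∀ v, (back G f v).ncard ≤ d) : HasSW G (2 * d) := by
  classical
  obtain ⟨b, hb⟩ := exists_label G f hf d hd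
  let c : Sym2 V → ℕ := Sym2.lift ⟨fun x y => if f x < f y then b y x else
    if f y < f x then b x y else 0, by
      intro x y
      dsimp only
      split_ifs <;> first | rfl | omega⟩
  have hc : ∀ x y, f x < f y → c s(x, y) = b y x := by
    intro x y h
    simp only [c, Sym2.lift_mk, if_pos h]
  have hc' : ∀ x y, f y < f x → c s(x, y) = b x y := by
    intro x y h
    rw [Sym2.eq_swap]; exact hc y x h
  -- two adjacent edges of the same colour have their common end before both other ends
  have key : ∀ x y z, G.Adj x y → G.Adj y z → x ≠ z → c s(x, y) = c s(y, z) →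
      f y < f x ∧ f y < f z := by
    intro x y z hxy hyz hxz h
    have hxy' : f x ≠ f y := fun h => hxy.ne (hf h)
    have hyz' : f y ≠ f z := fun h => hyz.ne (hf h)
    rcases lt_or_gt_of_ne hxy' with h1 | h1 <;> rcases lt_or_gt_of_ne hyz' with h2 | h2
    · -- x < y < z
      exfalso
      rw [hc x y h1, hc y z h2] at h
      exact (hb z).2.2.1 y ⟨hyz.symm, h2⟩ x ⟨hxy.symm, h1⟩ h
    · -- x < y, z < y
      exfalso
      rw [hc x y h1, hc' y z h2] at h
      exact (hb y).2.1 z ⟨hyz, h2⟩ x ⟨hxy.symm, h1⟩ hxz h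
    · exact ⟨h1, h2⟩
    · -- z < y < x
      exfalso
      rw [hc' x y h1, hc' y z h2] at h
      exact (hb x).2.2.1 y ⟨hxy, h1⟩ z ⟨hyz, h2⟩ h.symm
  refine ⟨c, ?_, ?_⟩
  · intro e he
    induction e with
    | h x y =>
      rw [SimpleGraph.mem_edgeSet] at he
      have hxy' : f x ≠ f y := fun h => he.ne (hf h)
      rcases lt_or_gt_of_ne hxy' with h1 | h1
      · rw [hc x y h1]; exact (hb y).1 x ⟨he.symm, h1⟩
      · rw [hc' x y h1]; exact (hb x).1 y ⟨he, h1⟩
  · intro u v h p hcyc
    rintro ⟨i, hi⟩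
    have hlen := hcyc.three_le_length
    have hpath : p.IsPath := by
      rw [Walk.cons_isCycle_iff] at hcyc
      exact hcyc.1
    rw [Walk.length_cons] at hlen
    match p, hpath, hlen, hi with
    | .nil, _, hlen, _ => simp at hlen
    | .cons h1 .nil, _, hlen, _ => simp at hlen
    | .cons (v := a) h1 (.cons (v := _) h2 .nil), hp, _, hi =>
      -- v - a - u, with u ~ v
      have hne : v ≠ u := h.ne.symm
      have e1 : c s(v, a) = i := hi _ (by simp)
      have e2 : c s(a, u) = i := hi _ (by simp)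
      obtain ⟨h3, h4⟩ := key v a u h1 h2 hne (by rw [e1, e2])
      have huv' : f u ≠ f v := fun h' => h.ne (hf h')
      rcases lt_or_gt_of_ne huv' with h5 | h5
      · -- a < u < v
        have := (hb v).2.2.2 a ⟨h1, h3⟩ u ⟨h.symm, h5⟩ ⟨h2.symm, h4⟩
        rw [← hc' v a h3, ← hc a u h4, e1, e2] at this
        exact this rfl
      · -- a < v < u
        have := (hb u).2.2.2 a ⟨h2.symm, h4⟩ v ⟨h, h5⟩ ⟨h1, h3⟩
        rw [← hc' v a h3, ← hc a u h4, e1, e2] at this
        exact this rfl
    | .cons (v := a) h1 (.cons (v := b') h2 (.cons (v := e) h3 q)), hp, _, hi =>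
      have e1 : c s(v, a) = i := hi _ (by simp)
      have e2 : c s(a, b') = i := hi _ (by simp)
      have e3 : c s(b', e) = i := hi _ (by simp)
      have n1 : v ≠ b' := by
        intro hv; subst hv
        simp [Walk.cons_isPath_iff] at hp
      have n2 : a ≠ e := by
        intro ha; subst ha
        simp [Walk.cons_isPath_iff] at hp
      have k1 := key v a b' h1 h2 n1 (by rw [e1, e2])
      have k2 := key a b' e h2 h3 n2 (by rw [e2, e3])
      omega

end Q130.SA
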