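import Pool.Agent.Q130.SA.Packing2
import Pool.Agent.Q130.SA.Defs2
import Pool.Agent.Q130.SA.Upper

set_option autoImplicit false

/-!
# Strong arboricity of graphs of large girth
-/

namespace Q130.SA

open SimpleGraph

variable {V : Type*}

/-- The colour class `i`. -/
def Cl (G : SimpleGraph V) (c : Sym2 V → ℕ) (i : ℕ) : SimpleGraph V where
  Adj u v := G.Adj u v ∧ c s(u, v) = i
  symm := ⟨fun u v h => ⟨h.1.symm, by rw [Sym2.eq_swap]; exact h.2⟩⟩
  loopless := ⟨fun u h => h.1.ne rfl⟩

theorem cl_le (G : SimpleGraph V) (c : Sym2 V → ℕ) (i : ℕ) : Cl G c i ≤ G := fun _ _ h => h.1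

theorem mem_cl_edgeSet (G : SimpleGraph V) (c : Sym2 V → ℕ) (i : ℕ) (e : Sym2 V) :
    e ∈ (Cl G c i).edgeSet ↔ e ∈ G.edgeSet ∧ c e = i := by
  induction e with
  | h x y => rfl

theorem StronglyWoody.acyclic {G : SimpleGraph V} {c : Sym2 V → ℕ} (h : StronglyWoody G c) (i : ℕ) :
    (Cl G c i).IsAcyclic := by
  intro a w hw
  have hw' : (w.mapLe (cl_le G c i)).IsCycle := hw.mapLe _
  have hcol : ∀ e ∈ (w.mapLe (cl_le G c i)).edges, c e = i := by
    intro e he
    rw [Walk.edges_mapLe_eq_edges] at he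
    exact ((mem_cl_edgeSet G c i e).1 (Walk.edges_subset_edgeSet _ he)).2
  generalize w.mapLe (cl_le G c i) = w' at hw' hcol
  cases w' with
  | nil => exact absurd hw' (by simp)
  | cons h1 p =>
    refine h _ _ h1 p hw' ⟨i, fun e he => hcol e ?_⟩
    rw [Walk.edges_cons]
    exact List.mem_cons_of_mem _ he

theorem Woody.acyclic {G : SimpleGraph V} {c : Sym2 V → ℕ} (h : Woody G c) (i : ℕ) :
    (Cl G c i).IsAcyclic := by
  intro a w hw
  have hw' : (w.mapLe (cl_le G c i)).IsCycle := hw.mapLe _
  refine h a _ hw' ⟨i, ?_⟩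
  intro e he
  rw [Walk.edges_mapLe_eq_edges] at he
  exact ((mem_cl_edgeSet G c i e).1 (Walk.edges_subset_edgeSet _ he)).2

theorem sum_classes [Finite V] (G : SimpleGraph V) (c : Sym2 V → ℕ) (k : ℕ)
    (hc : ∀ e ∈ G.edgeSet, c e < k) :
    G.edgeSet.ncard = ∑ i ∈ Finset.range k, (Cl G c i).edgeSet.ncard := by
  classical
  have : Fintype V := Fintype.ofFinite V
  have h1 := Finset.card_eq_sum_card_fiberwise (f := c) (s := G.edgeFinset) (t := Finset.range k)
    (fun e he => by
      simp only [Finset.coe_range, Set.mem_Iio]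
      exact hc e (by simpa using he))
  have e1 : G.edgeSet.ncard = G.edgeFinset.card := by
    rw [Set.ncard_eq_toFinset_card']; rfl
  rw [e1, h1]
  refine Finset.sum_congr rfl ?_
  intro i _
  rw [Set.ncard_eq_toFinset_card']
  congr 1
  ext e
  simp only [Finset.mem_filter, mem_edgeFinset, Set.mem_toFinset, mem_cl_edgeSet]

/-- **Main construction.** For all `k ≥ 2` and `g` there is a finite graph of arboricity `k` and girth
at least `g` whose strong arboricity exceeds `k`. -/
theorem large_girth (k g : ℕ) (hk : 2 ≤ k) : ∃ (n : ℕ) (G : SimpleGraph (Fin n)),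
    arb G = k ∧ (g : ℕ∞) ≤ G.egirth ∧ k < zeta G := by
  classical
  obtain ⟨n, hn, F, hT, hdis, hg⟩ := exists_packing k g
  have hne : Nonempty (Fin n) := ⟨⟨0, by omega⟩⟩
  set G := ⨆ i, F i with hG
  have hle : ∀ i, F i ≤ G := fun i => le_iSup F i
  have huniq : ∀ i j e, e ∈ (F i).edgeSet → e ∈ (F j).edgeSet → i = j := by
    intro i j e hi hj
    by_contra hne'
    have h1 := hdis i j hne'
    rw [← disjoint_edgeSet] at h1
    exact Set.disjoint_left.1 h1 hi hj
  have hmemG : ∀ e, e ∈ G.edgeSet ↔ ∃ i, e ∈ (F i).edgeSet := by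
    intro e
    induction e with
    | h x y =>
      simp only [mem_edgeSet, hG, iSup_adj]
  let c0 : Sym2 (Fin n) → ℕ := fun e => if h : ∃ i, e ∈ (F i).edgeSet then (h.choose : ℕ) else 0
  have hc0 : ∀ i e, e ∈ (F i).edgeSet → c0 e = i := by
    intro i e he
    have h : ∃ i, e ∈ (F i).edgeSet := ⟨i, he⟩
    simp only [c0, dif_pos h]
    exact congrArg Fin.val (huniq _ _ e h.choose_spec he)
  have hc0lt : ∀ e ∈ G.edgeSet, c0 e < k := by
    intro e he
    obtain ⟨i, hi⟩ := (hmemG e).1 he
    rw [hc0 i e hi]; exact i.2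
  have hwoody : Woody G c0 := by
    rintro u w hw ⟨i, hi⟩
    have hik : i < k := by
      have h3 := hw.three_le_length
      cases w with
      | nil => simp at h3
      | cons h1 p =>
        have := hi s(u, _) (by rw [Walk.edges_cons]; exact List.mem_cons_self)
        rw [← this]
        exact hc0lt _ ((mem_edgeSet _).2 h1)
    have hall : ∀ e ∈ w.edges, e ∈ (F ⟨i, hik⟩).edgeSet := by
      intro e he
      obtain ⟨j, hj⟩ := (hmemG e).1 (Walk.edges_subset_edgeSet _ he)
      have h1 := hc0 j e hj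
      rw [hi e he] at h1
      have : j = ⟨i, hik⟩ := Fin.ext h1.symm
      rwa [this] at hj
    exact (hT ⟨i, hik⟩).isAcyclic _ (hw.transfer hall)
  have hcard : ∀ i, (F i).edgeSet.ncard + 1 = n := by
    intro i
    have := (isTree_iff_connected_and_card.1 (hT i)).2
    rwa [Nat.card_eq_fintype_card (α := Fin n), Fintype.card_fin] at this
  have hsum : G.edgeSet.ncard = k * (n - 1) := by
    rw [sum_classes G c0 k hc0lt]
    rw [Finset.sum_congr rfl (g := fun _ => n - 1)]
    · rw [Finset.sum_const, Finset.card_range, smul_eq_mul]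
    · intro i hi
      rw [Finset.mem_range] at hi
      have : (Cl G c0 i).edgeSet = (F ⟨i, hi⟩).edgeSet := by
        ext e
        rw [mem_cl_edgeSet]
        constructor
        · rintro ⟨h1, h2⟩
          obtain ⟨j, hj⟩ := (hmemG e).1 h1
          have h3 := hc0 j e hj
          rw [h2] at h3
          have : j = ⟨i, hi⟩ := Fin.ext h3.symm
          rwa [this] at hj
        · intro h1
          exact ⟨(hmemG e).2 ⟨_, h1⟩, hc0 _ e h1⟩
      rw [this]
      have := hcard ⟨i, hi⟩
      omega
  refine ⟨n, G, ?_, hg, ?_⟩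
  · -- arboricity
    have hub : HasW G k := ⟨c0, hc0lt, hwoody⟩
    refine le_antisymm (Nat.sInf_le hub) (le_csInf ⟨_, hub⟩ ?_)
    rintro l ⟨c, hc, hw⟩
    have h1 := sum_classes G c l hc
    have h2 : ∑ i ∈ Finset.range l, (Cl G c i).edgeSet.ncard ≤
        ∑ _i ∈ Finset.range l, (n - 1) := by
      refine Finset.sum_le_sum fun i _ => ?_
      have := acyclic_card (Cl G c i) (hw.acyclic i)
      rw [Nat.card_eq_fintype_card, Fintype.card_fin] at this
      omega
    rw [← h1, hsum, Finset.sum_const, Finset.card_range, smul_eq_mul] at h2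
    exact Nat.le_of_mul_le_mul_right h2 (by omega)
  · -- strong arboricity
    have hne2 : {k | HasSW G k}.Nonempty :=
      ⟨_, hasSW_of_degenerate G Fin.val Fin.val_injective n (fun v => by
        refine (Set.ncard_le_card _).trans ?_
        simp)⟩
    have hmem : HasSW G (zeta G) := Nat.sInf_mem hne2
    by_contra hlt
    push Not at hlt
    obtain ⟨c, hc, hw⟩ := hmem
    have hc' : ∀ e ∈ G.edgeSet, c e < k := fun e he => (hc e he).trans_le hlt
    have h1 := sum_classes G c k hc'
    have hb : ∀ i, (Cl G c i).edgeSet.ncard ≤ n - 1 := by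
      intro i
      have := acyclic_card (Cl G c i) (hw.acyclic i)
      rw [Nat.card_eq_fintype_card, Fintype.card_fin] at this
      omega
    have htree : ∀ i < k, (Cl G c i).IsTree := by
      intro i hi
      refine tree_of_card _ (hw.acyclic i) ?_
      rw [Nat.card_eq_fintype_card, Fintype.card_fin]
      by_contra hcon
      push Not at hcon
      have h2 : ∑ i ∈ Finset.range k, (Cl G c i).edgeSet.ncard <
          ∑ _i ∈ Finset.range k, (n - 1) :=
        Finset.sum_lt_sum (fun j _ => hb j) ⟨i, Finset.mem_range.2 hi, by omega⟩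
      rw [← h1, hsum, Finset.sum_const, Finset.card_range, smul_eq_mul] at h2
      exact lt_irrefl _ h2
    -- an edge of colour 0
    have hT0 := htree 0 (by omega)
    have hT1 := htree 1 (by omega)
    obtain ⟨u, v, huv⟩ : ∃ u v, (Cl G c 0).Adj u v := by
      by_contra hcon
      push Not at hcon
      have h3 : (Cl G c 0).edgeSet = ∅ := by
        rw [edgeSet_eq_empty]
        ext a b
        simp [hcon a b]
      have h4 := (isTree_iff_connected_and_card.1 hT0).2
      rw [Nat.card_eq_fintype_card (α := Fin n), Fintype.card_fin] at h4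
      have h5 : (Cl G c 0).edgeSet.ncard = Nat.card (Cl G c 0).edgeSet := rfl
      rw [← h5, h3] at h4
      simp at h4
      omega
    obtain ⟨p, hp⟩ := (hT1.connected.preconnected v u).exists_isPath
    have hedge : s(u, v) ∉ (p.mapLe (cl_le G c 1)).edges := by
      rw [Walk.edges_mapLe_eq_edges]
      intro h
      have h3 := ((mem_cl_edgeSet G c 1 _).1 (Walk.edges_subset_edgeSet _ h)).2
      have h4 := huv.2
      omega
    refine hw u v huv.1 (p.mapLe (cl_le G c 1)) ?_ ⟨1, ?_⟩
    · rw [Walk.cons_isCycle_iff]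
      exact ⟨hp.mapLe _, hedge⟩
    · intro e he
      rw [Walk.edges_mapLe_eq_edges] at he
      exact ((mem_cl_edgeSet G c 1 e).1 (Walk.edges_subset_edgeSet _ he)).2

end Q130.SA
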