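import Pool.Agent.Q130.SA.Upper

set_option autoImplicit false

/-!
# Lower bound: a `d`-degenerate bipartite graph with `ζ = 2 d`
-/

namespace Q130.SA

open SimpleGraph

theorem four {V : Type*} {G : SimpleGraph V} {c : Sym2 V → ℕ} (hw : StronglyWoody G c) {a b x y : V}
    (h1 : G.Adj a b) (h2 : G.Adj b x) (h3 : G.Adj x y) (h4 : G.Adj y a) (nax : a ≠ x) (nby : b ≠ y)
    (i : ℕ) (e1 : c s(b, x) = i) (e2 : c s(x, y) = i) (e3 : c s(y, a) = i) : False := by
  refine hw a b h1 (.cons h2 (.cons h3 (.cons h4 .nil))) ?_ ⟨i, ?_⟩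
  · rw [Walk.cons_isCycle_iff]
    refine ⟨?_, ?_⟩
    · simp only [Walk.cons_isPath_iff, Walk.support_cons, Walk.support_nil,
        List.mem_cons, List.not_mem_nil, or_false, not_or, Walk.isPath_iff_nil, Walk.nil_nil, true_and]
      exact ⟨⟨h4.ne, h3.ne, nax.symm⟩, h2.ne, nby, h1.ne.symm⟩
    · simp only [Walk.edges_cons, Walk.edges_nil, List.mem_cons, List.not_mem_nil, or_false, not_or,
        Sym2.eq_iff, not_and]
      refine ⟨⟨fun h => absurd h h1.ne, fun h => absurd h nax⟩,
        ⟨fun h => absurd h nax, fun h _ => h4.ne h.symm⟩, ⟨fun h => absurd h h4.ne.symm, fun _ h => nby h⟩⟩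
  · intro e he
    simp only [Walk.edges_cons, Walk.edges_nil, List.mem_cons, List.not_mem_nil, or_false] at he
    rcases he with rfl | rfl | rfl <;> assumption

/-- vertex type of the construction -/
abbrev W (d N M : ℕ) := Fin d ⊕ (Fin N ⊕ ((Fin d → Fin N) × Fin M))

/-- the generating relation: every base vertex is joined to every middle vertex, a top vertex
`(g, j)` is joined to the middle vertices `g i`. -/
def R (d N M : ℕ) : W d N M → W d N M → Prop
  | .inl _, .inr (.inl _) => True
  | .inr (.inl v), .inr (.inr (g, _)) => ∃ i, g i = v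
  | _, _ => False

/-- the graph -/
def U (d N M : ℕ) : SimpleGraph (W d N M) := SimpleGraph.fromRel (R d N M)

variable {d N M : ℕ}

theorem adj1 (x : Fin d) (v : Fin N) : (U d N M).Adj (.inl x) (.inr (.inl v)) := by
  simp [U, SimpleGraph.fromRel_adj, R]

theorem adj2 (g : Fin d → Fin N) (j : Fin M) (i : Fin d) :
    (U d N M).Adj (.inr (.inl (g i))) (.inr (.inr (g, j))) := by
  simp [U, SimpleGraph.fromRel_adj, R]

/-- the ordering -/
noncomputable def ord (d N M : ℕ) : W d N M → ℕ
  | .inl x => x
  | .inr (.inl v) => d + v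
  | .inr (.inr p) => d + N + (Fintype.equivFin ((Fin d → Fin N) × Fin M) p : ℕ)

theorem ord_inj : Function.Injective (ord d N M) := by
  rintro (x | v | p) (x' | v' | p') h <;> simp only [ord] at h
  · have : x = x' := Fin.ext h
    rw [this]
  · omega
  · omega
  · omega
  · have : v = v' := Fin.ext (by omega)
    rw [this]
  · omega
  · omega
  · omega
  · have : Fintype.equivFin ((Fin d → Fin N) × Fin M) p =
      Fintype.equivFin ((Fin d → Fin N) × Fin M) p' := Fin.ext (by omega)
    rw [(Fintype.equivFin _).injective this]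

theorem back_le (v : W d N M) : (back (U d N M) (ord d N M) v).ncard ≤ d := by
  classical
  rcases v with x | v | ⟨g, j⟩
  · have : back (U d N M) (ord d N M) (.inl x) = ∅ := by
      ext u
      simp only [back, Set.mem_ofPred_eq, Set.mem_empty_iff_false, iff_false, not_and, not_lt]
      rcases u with u | u | u
      · simp [U, SimpleGraph.fromRel_adj, R]
      · intro _; simp only [ord]; omega
      · intro _; simp only [ord]; omega
    rw [this]; simp
  · have : back (U d N M) (ord d N M) (.inr (.inl v)) ⊆ Set.range (fun x : Fin d => Sum.inl x) := by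
      rintro (u | u | u) ⟨h1, h2⟩
      · exact ⟨u, rfl⟩
      · simp [U, SimpleGraph.fromRel_adj, R] at h1
      · simp only [ord] at h2; omega
    refine (Set.ncard_le_ncard this (Set.toFinite _)).trans ?_
    rw [← Set.image_univ]
    refine (Set.ncard_image_le (Set.toFinite _)).trans ?_
    simp
  · have : back (U d N M) (ord d N M) (.inr (.inr (g, j))) ⊆
        Set.range (fun i : Fin d => (Sum.inr (Sum.inl (g i)) : W d N M)) := by
      rintro (u | u | ⟨u, k⟩) ⟨h1, h2⟩
      · simp [U, SimpleGraph.fromRel_adj, R] at h1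
      · simp only [U, SimpleGraph.fromRel_adj, R] at h1
        rcases h1.2 with h | ⟨i, hi⟩
        · exact absurd h (by simp)
        · exact ⟨i, by simp [hi]⟩
      · simp [U, SimpleGraph.fromRel_adj, R] at h1
    refine (Set.ncard_le_ncard this (Set.toFinite _)).trans ?_
    rw [← Set.image_univ]
    refine (Set.ncard_image_le (Set.toFinite _)).trans ?_
    simp

/-- With fewer than `2 d` colours there is no strongly woody colouring. -/
theorem lower (hd : 2 ≤ d) (k : ℕ) (hk : k < 2 * d) (hN : k ^ d * d < N) (hM : k ^ d < M) :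
    ¬ HasSW (U d N M) k := by
  classical
  rintro ⟨c, hc, hw⟩
  -- types of middle vertices
  have hlt : ∀ (a b : W d N M), (U d N M).Adj a b → c s(a, b) < k := fun a b h =>
    hc _ ((SimpleGraph.mem_edgeSet _).2 h)
  let τ : Fin N → (Fin d → Fin k) := fun v x => ⟨c s(.inl x, .inr (.inl v)), hlt _ _ (adj1 x v)⟩
  obtain ⟨t, ht⟩ : ∃ t : Fin d → Fin k, d < (Finset.univ.filter (fun v => τ v = t)).card := by
    by_contra hcon
    push Not at hcon
    have h1 := Finset.card_eq_sum_card_fiberwise (f := τ) (s := Finset.univ) (t := Finset.univ)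
      (fun _ _ => Finset.mem_coe.2 (Finset.mem_univ _))
    have h2 : ∑ t : Fin d → Fin k, (Finset.univ.filter (fun v => τ v = t)).card ≤
        ∑ _t : Fin d → Fin k, d := Finset.sum_le_sum (fun t _ => hcon t)
    rw [← h1] at h2
    simp only [Finset.card_univ, Fintype.card_fin, Finset.sum_const, smul_eq_mul,
      Fintype.card_pi, Finset.prod_const] at h2
    omega
  obtain ⟨S, hS1, hS2⟩ := Finset.exists_subset_card_eq (le_of_lt ht)
  let g : Fin d → Fin N := fun i => (S.equivFinOfCardEq hS2).symm i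
  have hginj : Function.Injective g := by
    intro i i' h
    exact (S.equivFinOfCardEq hS2).symm.injective (Subtype.ext h)
  have hgt : ∀ i, τ (g i) = t := by
    intro i
    have := hS1 ((S.equivFinOfCardEq hS2).symm i).2
    simpa using this
  have hcol : ∀ i x, c s(.inl x, .inr (.inl (g i))) = t x := by
    intro i x
    have := congrFun (hgt i) x
    exact congrArg Fin.val this
  have h01 : ∃ a b : Fin d, a ≠ b := ⟨⟨0, by omega⟩, ⟨1, by omega⟩, by simp⟩
  obtain ⟨i0, i1, hi01⟩ := h01
  -- t is injective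
  have htinj : Function.Injective t := by
    intro x x' hxx
    by_contra hne
    refine four hw (a := .inl x) (b := .inr (.inl (g i0))) (x := .inl x') (y := .inr (.inl (g i1)))
      (adj1 _ _) (adj1 _ _).symm (adj1 _ _) (adj1 _ _).symm ?_ ?_ (t x) ?_ ?_ ?_
    · simpa using hne
    · simpa using fun h => hi01 (hginj h)
    · rw [Sym2.eq_swap, hcol, hxx]
    · rw [hcol, hxx]
    · rw [Sym2.eq_swap, hcol]
  -- colours of top edges avoid the range of t
  let s : Fin M → (Fin d → Fin k) := fun j i =>
    ⟨c s(.inr (.inl (g i)), .inr (.inr (g, j))), hlt _ _ (adj2 g j i)⟩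
  have hs : ∀ j i x, s j i ≠ t x := by
    intro j i x hEq
    have hEq' : c s(.inr (.inl (g i)), .inr (.inr (g, j))) = t x := congrArg Fin.val hEq
    obtain ⟨i', hi'⟩ : ∃ i', i' ≠ i := by
      by_cases h : i0 = i
      · exact ⟨i1, fun h' => hi01 (h.trans h'.symm)⟩
      · exact ⟨i0, h⟩
    -- path  (g,j) - g i - x - g i' ,  closing edge g i' - (g,j)
    refine four hw (a := .inr (.inl (g i'))) (b := .inr (.inr (g, j))) (x := .inr (.inl (g i)))
      (y := .inl x) (adj2 g j i') (adj2 g j i).symm (adj1 _ _).symm (adj1 _ _) ?_ ?_ (t x) ?_ ?_ ?_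
    · simpa using fun h => hi' (hginj h)
    · simp
    · rw [Sym2.eq_swap]; exact hEq'
    · rw [Sym2.eq_swap, hcol]
    · rw [hcol]
  -- s j is not injective
  have hsni : ∀ j, ∃ a b, a ≠ b ∧ s j a = s j b := by
    intro j
    by_contra hcon
    push Not at hcon
    have hinj : Function.Injective (s j) := by
      intro a b h
      by_contra hne
      exact hcon a b hne h
    have hinj2 : Function.Injective (Sum.elim (s j) t) := by
      rintro (a | a) (b | b) h
      · exact congrArg _ (hinj h)
      · exact absurd h (hs j a b)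
      · exact absurd h.symm (hs j b a)
      · exact congrArg _ (htinj h)
    have := Fintype.card_le_of_injective _ hinj2
    simp only [Fintype.card_sum, Fintype.card_fin] at this
    omega
  -- two copies with the same type
  obtain ⟨j, j', hjj, hsj⟩ : ∃ j j', j ≠ j' ∧ s j = s j' := by
    have := Fintype.exists_ne_map_eq_of_card_lt s (by simpa using hM)
    simpa using this
  obtain ⟨a, b, hab, hsab⟩ := hsni j
  have e1 : c s(.inr (.inl (g a)), .inr (.inr (g, j))) = s j a := rfl
  have e2 : c s(.inr (.inl (g b)), .inr (.inr (g, j))) = s j b := rfl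
  have e3 : c s(.inr (.inl (g a)), .inr (.inr (g, j'))) = s j' a := rfl
  have e4 : c s(.inr (.inl (g b)), .inr (.inr (g, j'))) = s j' b := rfl
  refine four hw (a := .inr (.inl (g a))) (b := .inr (.inr (g, j))) (x := .inr (.inl (g b)))
      (y := .inr (.inr (g, j'))) (adj2 g j a) (adj2 g j b).symm (adj2 g j' b) (adj2 g j' a).symm
      ?_ ?_ (s j a) ?_ ?_ ?_
  · simpa using fun h => hab (hginj h)
  · simpa using hjj
  · rw [Sym2.eq_swap, e2, hsab]
  · rw [e4, ← hsj, hsab]
  · rw [Sym2.eq_swap, e3, hsj]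

theorem HasSW.mono {V : Type*} {G : SimpleGraph V} {k l : ℕ} (h : HasSW G k) (hkl : k ≤ l) :
    HasSW G l := by
  obtain ⟨c, h1, h2⟩ := h
  exact ⟨c, fun e he => (h1 e he).trans_le hkl, h2⟩

theorem zeta_eq (hd : 2 ≤ d) (hN : (2 * d) ^ d * d < N) (hM : (2 * d) ^ d < M) :
    zeta (U d N M) = 2 * d := by
  have hub : HasSW (U d N M) (2 * d) := hasSW_of_degenerate _ _ ord_inj d back_le
  refine le_antisymm (Nat.sInf_le hub) ?_
  refine le_csInf ⟨_, hub⟩ ?_
  intro k hk
  by_contra hlt
  push Not at hlt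
  have h1 : k ^ d ≤ (2 * d) ^ d := Nat.pow_le_pow_left hlt.le d
  exact lower hd k hlt (lt_of_le_of_lt (Nat.mul_le_mul_right d h1) hN) (lt_of_le_of_lt h1 hM) hk

theorem col_eq (hd : 1 ≤ d) (hN : d ≤ N) : col (U d N M) = d + 1 := by
  classical
  have hmem : d + 1 ∈ {r | ∃ f : W d N M → ℕ, Function.Injective f ∧
      ∀ v, {u | (U d N M).Adj v u ∧ f u < f v}.ncard < r} :=
    ⟨ord d N M, ord_inj, fun v => Nat.lt_succ_of_le (back_le v)⟩
  refine le_antisymm (Nat.sInf_le hmem) (le_csInf ⟨_, hmem⟩ ?_)
  rintro r ⟨f, hf, hr⟩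
  -- the last vertex among base and middle vertices
  let S : Finset (W d N M) := Finset.univ.filter (fun v => (∃ x, v = .inl x) ∨ ∃ w, v = .inr (.inl w))
  have hSne : S.Nonempty := ⟨.inl ⟨0, hd⟩, by simp [S]⟩
  obtain ⟨m, hm1, hm2⟩ := S.exists_max_image f hSne
  simp only [S, Finset.mem_filter, Finset.mem_univ, true_and] at hm1 hm2
  have hlast := hr m
  rcases hm1 with ⟨x, rfl⟩ | ⟨w, rfl⟩
  · have hsub : Set.range (fun w : Fin N => (Sum.inr (Sum.inl w) : W d N M)) ⊆
        {u | (U d N M).Adj (.inl x) u ∧ f u < f (.inl x)} := by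
      rintro _ ⟨w, rfl⟩
      refine ⟨adj1 x w, lt_of_le_of_ne (hm2 _ (Or.inr ⟨w, rfl⟩)) fun h => ?_⟩
      have := hf h
      simp at this
    have h1 := Set.ncard_le_ncard hsub (Set.toFinite _)
    rw [← Set.image_univ, Set.ncard_image_of_injective _ (fun a b h => by simpa using h)] at h1
    simp only [Set.ncard_univ, Nat.card_eq_fintype_card, Fintype.card_fin] at h1
    have h2 : N < r := lt_of_le_of_lt h1 hlast
    omega
  · have hsub : Set.range (fun x : Fin d => (Sum.inl x : W d N M)) ⊆
        {u | (U d N M).Adj (.inr (.inl w)) u ∧ f u < f (.inr (.inl w))} := by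
      rintro _ ⟨x, rfl⟩
      refine ⟨(adj1 x w).symm, lt_of_le_of_ne (hm2 _ (Or.inl ⟨x, rfl⟩)) fun h => ?_⟩
      have := hf h
      simp at this
    have h1 := Set.ncard_le_ncard hsub (Set.toFinite _)
    rw [← Set.image_univ, Set.ncard_image_of_injective _ (fun a b h => by simpa using h)] at h1
    simp only [Set.ncard_univ, Nat.card_eq_fintype_card, Fintype.card_fin] at h1
    have h2 : d < r := lt_of_le_of_lt h1 hlast
    omega

/-- For every finite graph with colouring number `r ≥ 1`, `ζ ≤ 2 r - 2`. -/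
theorem zeta_le {V : Type*} [Finite V] (G : SimpleGraph V) (r : ℕ) (hr : 1 ≤ r) (h : col G = r) :
    zeta G ≤ 2 * r - 2 := by
  have hne : {r | ∃ f : V → ℕ, Function.Injective f ∧
      ∀ v, {u | G.Adj v u ∧ f u < f v}.ncard < r}.Nonempty := by
    by_contra hcon
    rw [Set.not_nonempty_iff_eq_empty] at hcon
    have : col G = 0 := by rw [col, hcon, Nat.sInf_empty]
    omega
  have hm := Nat.sInf_mem hne
  change col G ∈ _ at hm
  rw [h] at hm
  obtain ⟨f, hf, hf2⟩ := hm
  have := hasSW_of_degenerate G f hf (r - 1) (fun v => Nat.le_pred_of_lt (hf2 v))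
  have h2 : zeta G ≤ 2 * (r - 1) := Nat.sInf_le this
  omega

end Q130.SA
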