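import Mathlib

set_option autoImplicit false

/-!
# Graphs of large girth that are unions of `k` edge-disjoint spanning trees
-/

namespace Q130.SA

open SimpleGraph

variable {V : Type*}

theorem walk_split {G : SimpleGraph V} {a b : V} (w : G.Walk a b) (d : G.Dart) (hd : d ∈ w.darts) :
    ∃ (p : G.Walk a d.fst) (q : G.Walk d.snd b), w = p.append (Walk.cons d.adj q) := by
  induction w with
  | nil => simp at hd
  | cons h w ih =>
    rw [Walk.darts_cons, List.mem_cons] at hd
    rcases hd with rfl | hd
    · exact ⟨.nil, w, rfl⟩
    · obtain ⟨p, q, hpq⟩ := ih hd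
      exact ⟨.cons h p, q, by rw [hpq]; rfl⟩

/-- Adding an edge between far apart vertices does not create short cycles. -/
theorem girth_add {G : SimpleGraph V} {u v : V} (g : ℕ)
    (hG : ∀ (a : V) (w : G.Walk a a), w.IsCycle → g ≤ w.length)
    (hfar : ∀ p : G.Walk u v, g ≤ p.length + 1) :
    ∀ (a : V) (w : (G ⊔ edge u v).Walk a a), w.IsCycle → g ≤ w.length := by
  intro a w hw
  by_cases hmem : s(u, v) ∈ w.edges
  · -- split at the edge
    obtain ⟨d, hd1, hd2⟩ : ∃ d ∈ w.darts, d.edge = s(u, v) := by
      rw [Walk.edges, List.mem_map] at hmem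
      exact hmem
    obtain ⟨p, q, hpq⟩ := walk_split w d hd1
    have hnd : w.edges.Nodup := hw.isTrail.edges_nodup
    have hlen : w.length = p.length + q.length + 1 := by
      rw [hpq, Walk.length_append, Walk.length_cons]; ring
    have hedges : w.edges = p.edges ++ (s(u, v) :: q.edges) := by
      rw [hpq, Walk.edges_append, Walk.edges_cons]
      congr 2
    rw [hedges] at hnd
    have hp : s(u, v) ∉ p.edges := by
      intro h
      rw [List.nodup_append] at hnd
      exact hnd.2.2 _ h _ (List.mem_cons_self) rfl
    have hq : s(u, v) ∉ q.edges := by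
      rw [List.nodup_append] at hnd
      exact (List.nodup_cons.1 hnd.2.1).1
    have hall : ∀ e ∈ (q.append p).edges, e ∈ G.edgeSet := by
      intro e he
      have h1 : e ∈ (G ⊔ edge u v).edgeSet := Walk.edges_subset_edgeSet _ he
      have h2 : e ≠ s(u, v) := by
        rintro rfl
        rw [Walk.edges_append, List.mem_append] at he
        exact he.elim hq hp
      rw [edgeSet_sup] at h1
      rcases h1 with h1 | h1
      · exact h1
      · exfalso
        rw [edge, edgeSet_fromEdgeSet] at h1
        exact h2 h1.1
    have hcase : (d.fst = u ∧ d.snd = v) ∨ (d.fst = v ∧ d.snd = u) := by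
      have h3 : s(d.fst, d.snd) = s(u, v) := by rw [← hd2]; rfl
      rw [Sym2.eq_iff] at h3
      exact h3
    have hL : (q.append p).length + 1 = w.length := by rw [hlen, Walk.length_append]; ring
    rcases hcase with ⟨h1, h2⟩ | ⟨h1, h2⟩
    · have := hfar ((((q.append p).transfer G hall).copy h2 h1).reverse)
      rw [Walk.length_reverse, Walk.length_copy, Walk.length_transfer] at this
      omega
    · have := hfar (((q.append p).transfer G hall).copy h2 h1)
      rw [Walk.length_copy, Walk.length_transfer] at this
      omega
  · have hall : ∀ e ∈ w.edges, e ∈ G.edgeSet := by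
      intro e he
      have h1 : e ∈ (G ⊔ edge u v).edgeSet := Walk.edges_subset_edgeSet _ he
      have h2 : e ≠ s(u, v) := by
        rintro rfl
        exact hmem he
      rw [edgeSet_sup] at h1
      rcases h1 with h1 | h1
      · exact h1
      · exfalso
        rw [edge, edgeSet_fromEdgeSet] at h1
        exact h2 h1.1
    have := hG a (w.transfer G hall) (hw.transfer hall)
    rwa [Walk.length_transfer] at this

/-- The set of vertices reached from `u` by a walk of length at most `r`. -/
def ball (G : SimpleGraph V) (u : V) (r : ℕ) : Set V := {w | ∃ p : G.Walk u w, p.length ≤ r}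

theorem ball_ncard [Finite V] (G : SimpleGraph V) (D : ℕ)
    (hD : ∀ v, (G.neighborSet v).ncard ≤ D) (r : ℕ) : ∀ u, (ball G u r).ncard ≤ (D + 1) ^ r := by
  classical
  have : Fintype V := Fintype.ofFinite V
  induction r with
  | zero =>
    intro u
    have : ball G u 0 = {u} := by
      ext w
      constructor
      · rintro ⟨p, hp⟩
        cases p with
        | nil => rfl
        | cons _ _ => simp at hp
      · rintro rfl; exact ⟨.nil, by simp⟩
    rw [this]; simp
  | succ r ih =>
    intro u
    have hsub : ball G u (r + 1) ⊆
        ((insert u ((Finset.univ.filter (fun x => G.Adj u x)).biUnion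
          (fun x => Finset.univ.filter (fun w => w ∈ ball G x r))) : Finset V) : Set V) := by
      rintro w ⟨p, hp⟩
      cases p with
      | nil => simp
      | cons h q =>
        rename_i x
        simp only [Finset.coe_insert, Set.mem_insert_iff, Finset.mem_coe, Finset.mem_biUnion,
          Finset.mem_filter, Finset.mem_univ, true_and]
        right
        refine ⟨x, h, q, ?_⟩
        rw [Walk.length_cons] at hp
        omega
    have h1 := Set.ncard_le_ncard hsub (Set.toFinite _)
    rw [Set.ncard_coe_finset] at h1
    have h2 := Finset.card_insert_le u ((Finset.univ.filter (fun x => G.Adj u x)).biUnion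
          (fun x => Finset.univ.filter (fun w => w ∈ ball G x r)))
    have h3 : ((Finset.univ.filter (fun x => G.Adj u x)).biUnion
          (fun x => Finset.univ.filter (fun w => w ∈ ball G x r))).card ≤
          (Finset.univ.filter (fun x => G.Adj u x)).card * (D + 1) ^ r := by
      refine Finset.card_biUnion_le_card_mul _ _ _ ?_
      intro x _
      have := ih x
      rw [Set.ncard_eq_toFinset_card'] at this
      refine le_trans (le_of_eq ?_) this
      congr 1
      ext y; simp
    have h4 : (Finset.univ.filter (fun x => G.Adj u x)).card ≤ D := by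
      have := hD u
      rw [Set.ncard_eq_toFinset_card'] at this
      refine le_trans (le_of_eq ?_) this
      congr 1
      ext y; simp
    have h5 : (Finset.univ.filter (fun x => G.Adj u x)).card * (D + 1) ^ r ≤ D * (D + 1) ^ r :=
      Nat.mul_le_mul_right _ h4
    have h6 : 1 ≤ (D + 1) ^ r := Nat.one_le_pow _ _ (by omega)
    calc (ball G u (r + 1)).ncard ≤ D * (D + 1) ^ r + (D + 1) ^ r := by omega
      _ = (D + 1) ^ (r + 1) := by ring

/-- In a finite acyclic graph every vertex is connected to a vertex of degree at most one. -/
theorem reach_leaf [Finite V] (F : SimpleGraph V) (hF : F.IsAcyclic) (x : V) :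
    ∃ y, F.Reachable x y ∧ (F.neighborSet y).ncard ≤ 1 := by
  classical
  have : Fintype V := Fintype.ofFinite V
  set c := F.connectedComponentMk x with hc
  have hT : c.toSimpleGraph.IsTree := hF.isTree_connectedComponent c
  have hxc : x ∈ c.supp := rfl
  have key : ∀ y ∈ c.supp, ∀ z, F.Adj y z → z ∈ c.supp := by
    intro y hy z hz
    rw [ConnectedComponent.mem_supp_iff] at hy ⊢
    rw [← hy]
    exact ConnectedComponent.sound hz.symm.reachable
  by_cases hnt : Nontrivial c.supp
  · have hfin : Fintype c := Fintype.ofFinite _
    obtain ⟨v, hv⟩ := hT.exists_vert_degree_one_of_nontrivial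
    refine ⟨v, ?_, ?_⟩
    · have : (v : V) ∈ c.supp := v.2
      rw [ConnectedComponent.mem_supp_iff] at this
      exact (ConnectedComponent.exact this).symm
    · rw [Set.ncard_le_one_iff]
      intro a b ha hb
      rw [mem_neighborSet] at ha hb
      have ha' : a ∈ c.supp := key v v.2 a ha
      have hb' : b ∈ c.supp := key v v.2 b hb
      rw [SimpleGraph.degree, Finset.card_eq_one] at hv
      obtain ⟨t, ht⟩ := hv
      have h1 : (⟨a, ha'⟩ : c) ∈ c.toSimpleGraph.neighborFinset v := by
        rw [mem_neighborFinset]; exact ha
      have h2 : (⟨b, hb'⟩ : c) ∈ c.toSimpleGraph.neighborFinset v := by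
        rw [mem_neighborFinset]; exact hb
      rw [ht, Finset.mem_singleton] at h1 h2
      have := h1.trans h2.symm
      exact congrArg Subtype.val this
  · refine ⟨x, Reachable.refl x, ?_⟩
    have : F.neighborSet x = ∅ := by
      ext z
      simp only [mem_neighborSet, Set.mem_empty_iff_false, iff_false]
      intro hz
      apply hnt
      refine ⟨⟨⟨x, hxc⟩, ⟨z, key x hxc z hz⟩, fun h => hz.ne (congrArg Subtype.val h)⟩⟩
    rw [this]; simp

/-- An acyclic graph on `n` vertices has at most `n - 1` edges. -/
theorem acyclic_card [Finite V] [Nonempty V] (F : SimpleGraph V) (hF : F.IsAcyclic) :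
    F.edgeSet.ncard + 1 ≤ Nat.card V := by
  obtain ⟨T, h1, _, h3⟩ := (connected_top (V := V)).exists_isTree_le_of_le_of_isAcyclic le_top hF
  rw [isTree_iff_connected_and_card] at h3
  rw [← h3.2]
  have := Set.ncard_le_ncard (edgeSet_mono h1) (Set.toFinite _)
  have h4 : T.edgeSet.ncard = Nat.card T.edgeSet := rfl
  omega

/-- An acyclic graph on `n` vertices with `n - 1` edges is a tree. -/
theorem tree_of_card [Finite V] [Nonempty V] (F : SimpleGraph V) (hF : F.IsAcyclic)
    (h : Nat.card V ≤ F.edgeSet.ncard + 1) : F.IsTree := by
  obtain ⟨T, h1, _, h3⟩ := (connected_top (V := V)).exists_isTree_le_of_le_of_isAcyclic le_top hF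
  have h3' := h3
  rw [isTree_iff_connected_and_card] at h3
  have h4 : T.edgeSet.ncard = Nat.card T.edgeSet := rfl
  have h5 : F.edgeSet = T.edgeSet :=
    Set.eq_of_subset_of_ncard_le (edgeSet_mono h1) (by omega) (Set.toFinite _)
  have h6 : F = T := edgeSet_injective h5
  rw [h6]; exact h3'

end Q130.SA
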