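import Pool.Agent.Q130.SA.Packing

set_option autoImplicit false

/-!
# Graphs of large girth that are unions of `k` edge-disjoint spanning trees, part 2
-/

namespace Q130.SA

open SimpleGraph

variable {V : Type*}

/-- Good tuples. -/
def Good (k g : ℕ) (F : Fin k → SimpleGraph V) : Prop :=
  (∀ i, (F i).IsAcyclic) ∧ (∀ i v, ((F i).neighborSet v).ncard ≤ 4) ∧
  (∀ i j, i ≠ j → Disjoint (F i) (F j)) ∧
  ∀ (a : V) (w : (⨆ i, F i).Walk a a), w.IsCycle → g ≤ w.length

open Classical in
theorem neighborSet_edge [Finite V] (G : SimpleGraph V) (u v x : V) :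
    ((G ⊔ edge u v).neighborSet x).ncard ≤
      (G.neighborSet x).ncard + (if x = u ∨ x = v then 1 else 0) := by
  classical
  by_cases hu : x = u
  · subst hu
    have : (G ⊔ edge x v).neighborSet x ⊆ insert v (G.neighborSet x) := by
      intro y hy
      rw [mem_neighborSet, sup_adj, edge_adj] at hy
      rcases hy with hy | ⟨⟨_, h⟩ | ⟨h, h'⟩, hne⟩
      · exact Or.inr hy
      · exact Or.inl h
      · exact absurd h'.symm hne
    refine (Set.ncard_le_ncard this (Set.toFinite _)).trans ?_
    refine (Set.ncard_insert_le _ _).trans ?_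
    simp
  · by_cases hv : x = v
    · subst hv
      have : (G ⊔ edge u x).neighborSet x ⊆ insert u (G.neighborSet x) := by
        intro y hy
        rw [mem_neighborSet, sup_adj, edge_adj] at hy
        rcases hy with hy | ⟨⟨h, _⟩ | ⟨_, h'⟩, hne⟩
        · exact Or.inr hy
        · exact absurd h hu
        · exact Or.inl h'
      refine (Set.ncard_le_ncard this (Set.toFinite _)).trans ?_
      refine (Set.ncard_insert_le _ _).trans ?_
      simp
    · have : (G ⊔ edge u v).neighborSet x ⊆ G.neighborSet x := by
        intro y hy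
        rw [mem_neighborSet, sup_adj, edge_adj] at hy
        rcases hy with hy | ⟨⟨h, _⟩ | ⟨h, _⟩, hne⟩
        · exact hy
        · exact absurd h hu
        · exact absurd h hv
      refine (Set.ncard_le_ncard this (Set.toFinite _)).trans ?_
      omega

theorem good_add [Finite V] {k g : ℕ} (hg : 3 ≤ g) {F : Fin k → SimpleGraph V} (hF : Good k g F)
    (i : Fin k) {u v : V} (huv : ¬ (F i).Reachable u v)
    (hu : ((F i).neighborSet u).ncard ≤ 3) (hv : ((F i).neighborSet v).ncard ≤ 3)
    (hfar : ∀ p : (⨆ i, F i).Walk u v, g ≤ p.length + 1) :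
    Good k g (Function.update F i (F i ⊔ edge u v)) := by
  classical
  obtain ⟨h1, h2, h3, h4⟩ := hF
  have hsup : (⨆ j, Function.update F i (F i ⊔ edge u v) j) = (⨆ j, F j) ⊔ edge u v := by
    ext a b
    simp only [iSup_adj, sup_adj]
    constructor
    · rintro ⟨j, hj⟩
      by_cases hji : j = i
      · subst hji
        rw [Function.update_self, sup_adj] at hj
        exact hj.imp (fun h => ⟨j, h⟩) id
      · rw [Function.update_of_ne hji] at hj
        exact Or.inl ⟨j, hj⟩
    · rintro (⟨j, hj⟩ | h)
      · refine ⟨j, ?_⟩
        by_cases hji : j = i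
        · subst hji
          rw [Function.update_self, sup_adj]; exact Or.inl hj
        · rw [Function.update_of_ne hji]; exact hj
      · refine ⟨i, ?_⟩
        rw [Function.update_self, sup_adj]; exact Or.inr h
  have hdis : ∀ j, j ≠ i → Disjoint (F i ⊔ edge u v) (F j) := by
    intro j hj
    rw [disjoint_sup_left]
    refine ⟨h3 i j hj.symm, ?_⟩
    rw [disjoint_iff]
    ext a b
    simp only [inf_adj, bot_adj, iff_false, not_and]
    intro h5 h6
    have hadj : (F j).Adj u v := by
      rw [edge_adj] at h5
      rcases h5.1 with ⟨rfl, rfl⟩ | ⟨rfl, rfl⟩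
      · exact h6
      · exact h6.symm
    have h7 : (⨆ i, F i).Adj u v := by rw [iSup_adj]; exact ⟨j, hadj⟩
    have := hfar (.cons h7 .nil)
    simp at this
    omega
  refine ⟨?_, ?_, ?_, ?_⟩
  · intro j
    by_cases hji : j = i
    · subst hji
      rw [Function.update_self]
      exact (h1 j).sup_edge_of_not_reachable huv
    · rw [Function.update_of_ne hji]; exact h1 j
  · intro j x
    by_cases hji : j = i
    · subst hji
      rw [Function.update_self]
      have := neighborSet_edge (F j) u v x
      by_cases hx : x = u ∨ x = v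
      · rw [if_pos hx] at this
        have hx3 : ((F j).neighborSet x).ncard ≤ 3 := by
          rcases hx with rfl | rfl <;> assumption
        omega
      · rw [if_neg hx] at this
        have := h2 j x
        omega
    · rw [Function.update_of_ne hji]; exact h2 j x
  · intro a b hab
    by_cases ha : a = i
    · subst ha
      rw [Function.update_self, Function.update_of_ne hab.symm]
      exact hdis b hab.symm
    · by_cases hb : b = i
      · subst hb
        rw [Function.update_self, Function.update_of_ne ha]
        exact (hdis a ha).symm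
      · rw [Function.update_of_ne ha, Function.update_of_ne hb]
        exact h3 a b hab
  · rw [hsup]
    exact girth_add g h4 hfar

/-- **Packing.** For all `k ≥ 1` and `g` there are `k` edge-disjoint spanning trees on a common
vertex set whose union has girth at least `g`. -/
theorem exists_packing (k g : ℕ) : ∃ n, 3 ≤ n ∧ ∃ F : Fin k → SimpleGraph (Fin n),
    (∀ i, (F i).IsTree) ∧ (∀ i j, i ≠ j → Disjoint (F i) (F j)) ∧
    (g : ℕ∞) ≤ (⨆ i, F i).egirth := by
  classical
  set g' := max g 3 with hg'
  set B := (4 * k + 1) ^ g' with hB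
  have hB1 : 1 ≤ B := Nat.one_le_pow _ _ (by omega)
  set n := 4 * B + 3 with hn
  have hne : Nonempty (Fin n) := ⟨⟨0, by omega⟩⟩
  have hexist : ({F : Fin k → SimpleGraph (Fin n) | Good k g' F}).Nonempty := by
    refine ⟨fun _ => ⊥, ?_, ?_, ?_, ?_⟩
    · intro i; exact isAcyclic_bot
    · intro i v; simp
    · intro i j _; simp
    · intro a w hw
      exfalso
      have : (⨆ _ : Fin k, (⊥ : SimpleGraph (Fin n))).IsAcyclic := by
        rw [iSup_bot]; exact isAcyclic_bot
      exact this w hw
  obtain ⟨F, hF⟩ := (Set.toFinite {F : Fin k → SimpleGraph (Fin n) | Good k g' F}).exists_maximal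
    hexist
  have hgood : Good k g' F := hF.prop
  have hmax := hF
  obtain ⟨h1, h2, h3, h4⟩ := hgood
  set G := ⨆ i, F i with hG
  -- far low vertices are in the same component
  have hfar : ∀ i u v, ((F i).neighborSet u).ncard ≤ 3 → ((F i).neighborSet v).ncard ≤ 3 →
      (∀ p : G.Walk u v, g' ≤ p.length + 1) → (F i).Reachable u v := by
    intro i u v hu hv hp
    by_contra hr
    have hgood' := good_add (by omega) hF.prop i hr hu hv hp
    have hle : F ≤ Function.update F i (F i ⊔ edge u v) := by
      intro j
      by_cases hji : j = i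
      · subst hji; rw [Function.update_self]; exact le_sup_left
      · rw [Function.update_of_ne hji]
    have heq := hmax.eq_of_le hgood' hle
    have h5 : F i = F i ⊔ edge u v := by
      conv_lhs => rw [heq]
      rw [Function.update_self]
    have huv : u ≠ v := by rintro rfl; exact hr (Reachable.refl _)
    have h6 : (F i).Adj u v := by
      rw [h5, sup_adj, edge_adj]; exact Or.inr ⟨Or.inl ⟨rfl, rfl⟩, huv⟩
    exact hr h6.reachable
  -- degrees in G
  have hdeg : ∀ v, (G.neighborSet v).ncard ≤ 4 * k := by
    intro v
    have hsub : G.neighborSet v ⊆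
        ((Finset.univ.biUnion (fun i : Fin k => ((F i).neighborSet v).toFinset) : Finset (Fin n)) :
          Set (Fin n)) := by
      intro x hx
      rw [mem_neighborSet, hG, iSup_adj] at hx
      obtain ⟨i, hi⟩ := hx
      simp only [Finset.coe_biUnion, Finset.coe_univ, Set.mem_univ, Set.iUnion_true, Set.mem_iUnion,
        Set.coe_toFinset, mem_neighborSet]
      exact ⟨i, hi⟩
    refine (Set.ncard_le_ncard hsub (Set.toFinite _)).trans ?_
    rw [Set.ncard_coe_finset]
    refine (Finset.card_biUnion_le_card_mul _ _ 4 ?_).trans ?_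
    · intro i _
      have := h2 i v
      rwa [Set.ncard_eq_toFinset_card'] at this
    · simp [mul_comm]
  have hball : ∀ u, (ball G u g').ncard ≤ B := ball_ncard G (4 * k) hdeg g'
  -- many low vertices
  have hlow : ∀ i, 2 * B < {v | ((F i).neighborSet v).ncard ≤ 3}.ncard := by
    intro i
    have hE := acyclic_card (F i) (h1 i)
    have hsum := (F i).sum_degrees_eq_twice_card_edges
    have e1 : (F i).edgeSet.ncard = (F i).edgeFinset.card := by
      rw [Set.ncard_eq_toFinset_card']; rfl
    rw [← e1] at hsum
    have e2 : ∀ v, (F i).degree v = ((F i).neighborSet v).ncard := by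
      intro v
      rw [Set.ncard_eq_toFinset_card']; rfl
    have e3 : ∑ v, (F i).degree v ≥
        4 * (Finset.univ.filter (fun v => ¬ ((F i).neighborSet v).ncard ≤ 3)).card := by
      calc ∑ v, (F i).degree v ≥
          ∑ v ∈ Finset.univ.filter (fun v => ¬ ((F i).neighborSet v).ncard ≤ 3), (F i).degree v :=
            Finset.sum_le_sum_of_subset (Finset.filter_subset _ _)
        _ ≥ ∑ v ∈ Finset.univ.filter (fun v => ¬ ((F i).neighborSet v).ncard ≤ 3), 4 := by
            refine Finset.sum_le_sum ?_
            intro v hv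
            rw [Finset.mem_filter] at hv
            rw [e2]; omega
        _ = _ := by rw [Finset.sum_const, smul_eq_mul, mul_comm]
    have e4 := Finset.card_filter_add_card_filter_not (s := (Finset.univ : Finset (Fin n)))
      (fun v => ((F i).neighborSet v).ncard ≤ 3)
    have e5 : {v | ((F i).neighborSet v).ncard ≤ 3}.ncard =
        (Finset.univ.filter (fun v => ((F i).neighborSet v).ncard ≤ 3)).card := by
      rw [Set.ncard_eq_toFinset_card']
      congr 1
      ext y; simp
    rw [e5]
    rw [Finset.card_univ, Fintype.card_fin] at e4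
    rw [Nat.card_eq_fintype_card, Fintype.card_fin] at hE
    omega
  have hlowreach : ∀ i u w, ((F i).neighborSet u).ncard ≤ 3 → ((F i).neighborSet w).ncard ≤ 3 →
      (F i).Reachable u w := by
    intro i u w hu hw
    obtain ⟨z, hz1, hz2⟩ : ∃ z ∈ {v | ((F i).neighborSet v).ncard ≤ 3},
        z ∉ ball G u g' ∪ ball G w g' := by
      by_contra hcon
      push Not at hcon
      have h5 := Set.ncard_le_ncard (show {v | ((F i).neighborSet v).ncard ≤ 3} ⊆
        ball G u g' ∪ ball G w g' from hcon) (Set.toFinite _)
      have h6 := Set.ncard_union_le (ball G u g') (ball G w g')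
      have h7 := hball u
      have h8 := hball w
      have h9 := hlow i
      omega
    have hz : ∀ x, z ∉ ball G x g' → ∀ p : G.Walk x z, g' ≤ p.length + 1 := by
      intro x hx p
      by_contra hcon
      exact hx ⟨p, by omega⟩
    have r1 := hfar i u z hu hz1 (hz u (fun h => hz2 (Or.inl h)))
    have r2 := hfar i w z hw hz1 (hz w (fun h => hz2 (Or.inr h)))
    exact r1.trans r2.symm
  refine ⟨n, by omega, F, ?_, h3, ?_⟩
  · intro i
    refine ⟨⟨?_⟩, h1 i⟩
    intro x y
    obtain ⟨lx, hx1, hx2⟩ := reach_leaf (F i) (h1 i) x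
    obtain ⟨ly, hy1, hy2⟩ := reach_leaf (F i) (h1 i) y
    exact (hx1.trans (hlowreach i lx ly (by omega) (by omega))).trans hy1.symm
  · rw [le_egirth]
    intro a w hw
    have h5 := h4 a w hw
    have h6 : g ≤ w.length := (le_max_left g 3).trans h5
    exact_mod_cast h6

end Q130.SA
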